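import Pool.Agent.H34.TAM.Stmts3

/-!
Row NUA of the board per (MP_286349_an): the largest seminorm of `T` bounds the action and the trace.
-/

set_option autoImplicit false

noncomputable section

open Filter
open scoped Topology TensorProduct

namespace Pool.PER

open Pool.CGR Pool.CGS Pool.TAM Pool.AUT MulOpposite

namespace NUAH

theorem wd_nil {m : ℕ} : wd ([] : List (Fin m)) = 1 := by
  unfold wd
  rw [List.map_nil, List.prod_nil]

theorem wd_cons {m : ℕ} (k : Fin m) (u : List (Fin m)) : wd (k :: u) = io k * wd u := by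
  unfold wd
  rw [List.map_cons, List.prod_cons]

theorem ac_tmul {m : ℕ} (a b q : Fr m) : ac (a ⊗ₜ[ℂ] op b) q = a * q * b := by
  unfold ac
  rw [AlgHom.mulLeftRight_apply, unop_op]

theorem tt_tmul {m : ℕ} (t : Fr m →ₗ[ℂ] ℂ) (a b : Fr m) : tt t (a ⊗ₜ[ℂ] op b) = t a * t b := by
  simp [tt, uo]

theorem d2_tmul {m : ℕ} (δ : Fr m →ₗ[ℂ] Fr m) (a b : Fr m) :
    d2 δ (a ⊗ₜ[ℂ] op b) = δ a ⊗ₜ[ℂ] op b + a ⊗ₜ[ℂ] op (δ b) := by
  simp [d2, uo]

section

variable {m : ℕ} {A : Type} [CStarAlgebra A] {τ : A →ₗ[ℂ] ℂ} {x : Fin m → A} {r : ℝ}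

theorem norm_one_le : ‖(1 : A)‖ ≤ 1 := by
  rcases subsingleton_or_nontrivial A with h | h
  · rw [Subsingleton.elim (1 : A) 0, norm_zero]
    exact zero_le_one
  · rw [CStarRing.norm_one]

theorem norm_wd (h1 : 1 ≤ r) (hx : ∀ i, ‖x i‖ ≤ r) (u : List (Fin m)) :
    ‖FreeAlgebra.lift ℂ x (wd u)‖ ≤ r ^ u.length := by
  induction u with
  | nil =>
    rw [wd_nil, map_one, List.length_nil, pow_zero]
    exact norm_one_le
  | cons k u ih =>
    rw [wd_cons, map_mul, FreeAlgebra.lift_ι_apply, List.length_cons, pow_succ']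
    exact (norm_mul_le _ _).trans (mul_le_mul (hx k) ih (norm_nonneg _) (by linarith))

theorem n2_zero (hτ : IsTrace τ) : n2 τ 0 = 0 := by
  have h := (two_thm A τ hτ).2.2.1 0
  rw [norm_zero] at h
  exact le_antisymm h.2.1 h.1

theorem tau_le (hτ : IsTrace τ) (a : A) : ‖τ a‖ ≤ n2 τ a := by
  obtain ⟨h1, h2, h3, h4, h5⟩ := two_thm A τ hτ
  have h := h1 a 1
  rw [mul_one] at h
  refine h.trans ?_
  have h6 := (h3 (1 : A)).2.1.trans norm_one_le
  exact mul_le_of_le_one_right (h3 a).1 h6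

theorem n2_der (hN : N2MStmt) (hτ : IsTrace τ) (h1 : 1 ≤ r) (hx : ∀ i, ‖x i‖ ≤ r)
    (δ : Fr m →ₗ[ℂ] Fr m) (hδ : IsDer δ) (u : List (Fin m)) :
    n2 τ (FreeAlgebra.lift ℂ x (δ (wd u))) ≤
      u.length * r ^ u.length * ∑ k, n2 τ (FreeAlgebra.lift ℂ x (δ (io k))) := by
  obtain ⟨t1, t2, t3, t4, t5⟩ := two_thm A τ hτ
  have hS : ∀ k, n2 τ (FreeAlgebra.lift ℂ x (δ (io k))) ≤
      ∑ k, n2 τ (FreeAlgebra.lift ℂ x (δ (io k))) := fun k =>
    Finset.single_le_sum (f := fun k => n2 τ (FreeAlgebra.lift ℂ x (δ (io k))))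
      (fun i _ => (t3 _).1) (Finset.mem_univ k)
  have hS0 : 0 ≤ ∑ k, n2 τ (FreeAlgebra.lift ℂ x (δ (io k))) :=
    Finset.sum_nonneg fun i _ => (t3 _).1
  induction u with
  | nil =>
    have h0 : δ 1 = 0 := by
      have h := hδ 1 1
      rw [mul_one, mul_one, one_mul] at h
      exact left_eq_add.1 h
    rw [wd_nil, h0, map_zero, n2_zero hτ]
    simp
  | cons k u ih =>
    rw [wd_cons, hδ, map_add, map_mul, map_mul, FreeAlgebra.lift_ι_apply]
    refine (t2 _ _).trans ?_
    have e1 := (hN A τ hτ (FreeAlgebra.lift ℂ x (δ (io k))) (FreeAlgebra.lift ℂ x (wd u))).2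
    have e2 := (hN A τ hτ (x k) (FreeAlgebra.lift ℂ x (δ (wd u)))).1
    have e3 := norm_wd h1 hx u
    have e4 : n2 τ (FreeAlgebra.lift ℂ x (δ (io k))) * ‖FreeAlgebra.lift ℂ x (wd u)‖ ≤
        (∑ k, n2 τ (FreeAlgebra.lift ℂ x (δ (io k)))) * r ^ u.length :=
      mul_le_mul (hS k) e3 (norm_nonneg _) hS0
    have e5 : ‖x k‖ * n2 τ (FreeAlgebra.lift ℂ x (δ (wd u))) ≤
        r * (u.length * r ^ u.length * ∑ k, n2 τ (FreeAlgebra.lift ℂ x (δ (io k)))) :=
      mul_le_mul (hx k) ih (t3 _).1 (by linarith)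
    have e6 : (0 : ℝ) ≤ r ^ u.length := by positivity
    have e7 : 0 ≤ (∑ k, n2 τ (FreeAlgebra.lift ℂ x (δ (io k)))) * r ^ u.length :=
      mul_nonneg hS0 e6
    have e8 := mul_le_mul_of_nonneg_right h1 e7
    rw [List.length_cons, pow_succ']
    push_cast
    nlinarith

end

end NUAH

open NUAH in
/-- **NUA** -/
theorem nua_thm : NUAStmt := by
  intro hN m A _ τ x r ν hD z
  obtain ⟨hτ, hr, hx, hν⟩ := hD
  obtain ⟨t1, t2, t3, t4, t5⟩ := two_thm A τ hτ
  have hr0 : 0 ≤ r := by linarith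
  have hwt : ∀ u v : List (Fin m), r ^ u.length * r ^ v.length ≤ wt r u v := by
    intro u v
    unfold wt
    rw [pow_add]
    have h1 : (0 : ℝ) ≤ r ^ u.length * r ^ v.length := by positivity
    have h2 : (0 : ℝ) ≤ (u.length : ℝ) := Nat.cast_nonneg _
    have h3 : (0 : ℝ) ≤ (v.length : ℝ) := Nat.cast_nonneg _
    nlinarith [mul_nonneg h2 h1, mul_nonneg h3 h1]
  refine ⟨?_, ?_, ?_⟩
  · intro q
    have h := hν.max (fun z => n2 τ (FreeAlgebra.lift ℂ x (ac z q)))
      (n2 τ (FreeAlgebra.lift ℂ x q)) (t3 _).1 (by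
        intro z z'
        have e : ac (z + z') q = ac z q + ac z' q := by
          unfold ac
          rw [map_add, LinearMap.add_apply]
        rw [e, map_add]
        exact t2 _ _) (by
        intro c z
        have e : ac (c • z) q = c • ac z q := by
          unfold ac
          rw [map_smul, LinearMap.smul_apply]
        rw [e, map_smul, t5]) (by
        intro u v
        rw [ac_tmul, map_mul, map_mul]
        have e1 := (hN A τ hτ (FreeAlgebra.lift ℂ x (wd u) * FreeAlgebra.lift ℂ x q)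
          (FreeAlgebra.lift ℂ x (wd v))).2
        have e2 := (hN A τ hτ (FreeAlgebra.lift ℂ x (wd u)) (FreeAlgebra.lift ℂ x q)).1
        have e3 := norm_wd hr hx u
        have e4 := norm_wd hr hx v
        have e5 : n2 τ (FreeAlgebra.lift ℂ x (wd u) * FreeAlgebra.lift ℂ x q) ≤
            r ^ u.length * n2 τ (FreeAlgebra.lift ℂ x q) :=
          e2.trans (mul_le_mul_of_nonneg_right e3 (t3 _).1)
        have e6 : n2 τ (FreeAlgebra.lift ℂ x (wd u) * FreeAlgebra.lift ℂ x q) *
            ‖FreeAlgebra.lift ℂ x (wd v)‖ ≤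
            r ^ u.length * n2 τ (FreeAlgebra.lift ℂ x q) * r ^ v.length :=
          mul_le_mul e5 e4 (norm_nonneg _) (mul_nonneg (by positivity) (t3 _).1)
        have e7 := mul_le_mul_of_nonneg_left (hwt u v) (t3 (FreeAlgebra.lift ℂ x q)).1
        nlinarith) z
    rw [mul_comm]
    exact h
  · have h := hν.max (fun z => ‖tt (tx τ x) z‖) 1 zero_le_one (by
        intro z z'
        rw [map_add]
        exact norm_add_le _ _) (by
        intro c z
        rw [map_smul, norm_smul]) (by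
        intro u v
        rw [tt_tmul, norm_mul, one_mul]
        have e : ∀ w : List (Fin m), ‖tx τ x (wd w)‖ ≤ r ^ w.length := by
          intro w
          unfold tx
          exact ((tau_le hτ _).trans (t3 _).2.1).trans (norm_wd hr hx w)
        exact (mul_le_mul (e u) (e v) (norm_nonneg _) (by positivity)).trans (hwt u v)) z
    rw [one_mul] at h
    exact h
  · intro δ hδ
    have hS0 : 0 ≤ ∑ k, n2 τ (FreeAlgebra.lift ℂ x (δ (io k))) :=
      Finset.sum_nonneg fun i _ => (t3 _).1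
    have h := hν.max (fun z => ‖tt (tx τ x) (d2 δ z)‖)
      (∑ k, n2 τ (FreeAlgebra.lift ℂ x (δ (io k)))) hS0 (by
        intro z z'
        rw [map_add, map_add]
        exact norm_add_le _ _) (by
        intro c z
        rw [map_smul, map_smul, norm_smul]) (by
        intro u v
        rw [d2_tmul, map_add, tt_tmul, tt_tmul]
        have e : ∀ w : List (Fin m), ‖tx τ x (wd w)‖ ≤ r ^ w.length := by
          intro w
          unfold tx
          exact ((tau_le hτ _).trans (t3 _).2.1).trans (norm_wd hr hx w)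
        have e' : ∀ w : List (Fin m), ‖tx τ x (δ (wd w))‖ ≤ w.length * r ^ w.length *
            ∑ k, n2 τ (FreeAlgebra.lift ℂ x (δ (io k))) := by
          intro w
          unfold tx
          exact (tau_le hτ _).trans (n2_der hN hτ hr hx δ hδ w)
        refine (norm_add_le _ _).trans ?_
        rw [norm_mul, norm_mul]
        have g1 := mul_le_mul (e' u) (e v) (norm_nonneg _) (mul_nonneg (by positivity) hS0)
        have g2 := mul_le_mul (e u) (e' v) (norm_nonneg _) (by positivity)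
        refine (add_le_add g1 g2).trans ?_
        unfold wt
        rw [pow_add]
        have g3 : 0 ≤ r ^ u.length * r ^ v.length *
            ∑ k, n2 τ (FreeAlgebra.lift ℂ x (δ (io k))) := mul_nonneg (by positivity) hS0
        nlinarith) z
    rw [mul_comm]
    exact h

end Pool.PER
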